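import Mathlib

/-! The weights of a Cayley graph on `(ZMod 2) ^ 9`. -/

set_option autoImplicit false

namespace H721R3.CE

/-- table of the weights -/
def FN : ℕ := 85937126111393810256637898829357135503442344513283198547080384117479422099793713407179587392327239952968978598122501523484594862777445529561599192365617759777058587512660979008584091904949357277020910634165393748713494542730889121656622798176909110157543113502933220372565789990454163014385041836980573404152755929254260801330794714579951614871694507692650258116203397876884105908980249481179158169168144587783574404804790728518430084883966858328915930975070469403405856328031180409669860670669272812234522710759246639656140716349755607815842311157167769949090489125429888398853839329982459863206725290644551057742038353665443804690448892049244413217710100009833840711523063894835838105804052521582416195774055691018598610638816131886328714730636983559843277640939580785124764237040806366493629349084045305596262536533470256877273208844019537460414279793611941029636942332289973731210095555141364129606415737642270340116388331680413742097418484585712751473655120569463082347245522817580085308998908714771797094725636081485139106598386232750979842656169619100055470090032635592207114522675546988938831872506507479538248204013446078953345803228810279792034403794944863344411430766321325741495615920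

/-- table of the parities -/
def PN : ℕ := 7877703466965951741784356862959128443265788382021580589009765834561689170293574700951863729220303088751879007905492507289381878411509378061636115163081110

/-- the weight function -/
def f (z : ℕ) : ℕ := (FN >>> (8 * z)) % 256

/-- parity of the number of binary digits one, below `512` -/
def par (n : ℕ) : Bool := PN.testBit n

/-- the support of `f` -/
def K : List ℕ := [0, 1, 2, 4, 15, 23, 25, 26, 28, 39, 41, 42, 44, 49, 50, 52, 55, 57, 58, 60, 63, 71, 73, 74, 76, 81, 82, 84, 87, 89, 90, 92, 95, 97, 98, 100, 103, 105, 106, 108, 111, 113, 114, 116, 119, 121, 122, 124, 127, 135, 137, 138, 140, 145, 146, 148, 151, 153, 154, 156, 159, 161, 162, 164, 167, 169, 170, 172, 175, 177, 178, 180, 183, 185, 186, 188, 191, 193, 194, 196, 199, 201, 202, 204, 207, 209, 210, 212, 215, 217, 218, 220, 223, 225, 226, 228, 231, 233, 234, 236, 239, 247, 249, 250, 252, 257, 258, 260, 264, 271, 272, 288, 320, 384, 496]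

/-- total weight of the support where the character is one -/
def pos (u : ℕ) : List ℕ → ℕ
  | [] => 0
  | t :: l => (if par (u &&& t) then 0 else f t) + pos u l

theorem K_eq : ((List.range 512).filter fun t => f t != 0) = K := by
  decide +kernel

theorem par_list : ((List.range 512).all fun n => par n ==
    (n.testBit 0 ^^ n.testBit 1 ^^ n.testBit 2 ^^ n.testBit 3 ^^ n.testBit 4 ^^ n.testBit 5 ^^
    n.testBit 6 ^^ n.testBit 7 ^^ n.testBit 8)) = true := by
  decide +kernel

end H721R3.CE
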