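import Pool.Agent.H721R3.CE.Main

set_option autoImplicit false

namespace H721R3.CE

attribute [local irreducible] f par FN PN K

def v0 : Fin 512 := ⟨0, by norm_num⟩
def v1 : Fin 512 := ⟨1, by norm_num⟩
def v2 : Fin 512 := ⟨2, by norm_num⟩

theorem adj01 : G.Adj v0 v1 := by
  refine ⟨by simp [v0, v1], ?_⟩
  show f (0 ^^^ 1) ≠ 0
  rw [Nat.zero_xor, f_one]
  norm_num

theorem adj02 : G.Adj v0 v2 := by
  refine ⟨by simp [v0, v2], ?_⟩
  show f (0 ^^^ 2) ≠ 0
  rw [Nat.zero_xor, f_two]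
  norm_num

/-- the path on three vertices -/
def pth : Fin 3 → Fin 512 := ![v1, v0, v2]

theorem pth_inj : Function.Injective pth := by
  have h : ∀ i : Fin 3, (pth i).1 = ![1, 0, 2] i := by
    intro i
    fin_cases i <;> rfl
  intro i j hij
  have h2 : (![1, 0, 2] : Fin 3 → ℕ) i = ![1, 0, 2] j := by
    rw [← h, ← h, hij]
  revert h2
  clear hij h
  revert i j
  decide

theorem pth_adj : ∀ i j : Fin 3, i ≠ j → ¬(i = 0 ∧ j = 2) → ¬(i = 2 ∧ j = 0) →
    G.Adj (pth i) (pth j) := by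
  have e0 : pth 0 = v1 := rfl
  have e1 : pth 1 = v0 := rfl
  have e2 : pth 2 = v2 := rfl
  have a1 : G.Adj (pth 0) (pth 1) := by rw [e0, e1]; exact adj01.symm
  have a2 : G.Adj (pth 1) (pth 2) := by rw [e1, e2]; exact adj02
  intro i j hij h1 h2
  match i, j, hij, h1, h2 with
  | 0, 0, h, _, _ => exact absurd rfl h
  | 0, 1, _, _, _ => exact a1
  | 0, 2, _, h, _ => exact absurd ⟨rfl, rfl⟩ h
  | 1, 0, _, _, _ => exact a1.symm
  | 1, 1, h, _, _ => exact absurd rfl h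
  | 1, 2, _, _, _ => exact a2
  | 2, 0, _, _, h => exact absurd ⟨rfl, rfl⟩ h
  | 2, 1, _, _, _ => exact a2.symm
  | 2, 2, h, _, _ => exact absurd rfl h

theorem le_three : ∀ s : ℕ, (∃ g : Fin s → Fin 512, Function.Injective g ∧ ∃ a b : Fin s, a ≠ b ∧
    ∀ i j : Fin s, i ≠ j → ¬(i = a ∧ j = b) → ¬(i = b ∧ j = a) → G.Adj (g i) (g j)) →
    s ≤ 3 := by
  rintro s ⟨g, hg, a, b, hab, hadj⟩
  by_contra hs
  have hs : 4 ≤ s := by omega
  have hc : 2 ≤ (({a, b} : Finset (Fin s))ᶜ).card := by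
    rw [Finset.card_compl, Fintype.card_fin]
    have : ({a, b} : Finset (Fin s)).card ≤ 2 := Finset.card_le_two
    omega
  obtain ⟨c, hc1, d, hd1, hcd⟩ := Finset.one_lt_card.1 (lt_of_lt_of_le one_lt_two hc)
  rw [Finset.mem_compl, Finset.mem_insert, Finset.mem_singleton, not_or] at hc1 hd1
  refine no_tri (g a) (g c) (g d) ?_ ?_ ?_
  · exact hadj a c (Ne.symm hc1.1) (fun h => hc1.2 h.2) (fun h => hab h.1)
  · exact hadj a d (Ne.symm hd1.1) (fun h => hd1.2 h.2) (fun h => hab h.1)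
  · exact hadj c d hcd (fun h => hc1.1 h.1) (fun h => hc1.2 h.1)

theorem A_nonneg (i j : Fin 512) : 0 ≤ A i j := by
  rw [A, Matrix.of_apply]
  exact Nat.cast_nonneg _

theorem A_pattern (i j : Fin 512) (hij : i ≠ j) (hadj : ¬ G.Adj i j) : A i j = 0 := by
  rw [A, Matrix.of_apply]
  by_contra hne
  apply hadj
  refine ⟨hij, fun h0 => hne ?_⟩
  rw [h0]
  exact Nat.cast_zero

end H721R3.CE
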