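import Pool.Agent.H721R3.CE.Data

set_option autoImplicit false

namespace H721R3.CE

theorem sum_K : pos 0 K = 560 := by
  decide +kernel

theorem vals : ((List.range 512).all fun t => (f t == 0) || (f t == 1) || (f t == 28) ||
    (t == 0 && f t == 176)) = true := by
  decide +kernel

theorem key_ne : ((List.range 512).all fun t => (t == 0) ||
    ((List.range 9).any fun b => par (2 ^ b &&& t))) = true := by
  decide +kernel

theorem count_one_false : ((List.range 512).filter fun t => f t == 1 && !(par (256 &&& t))).length
    = 104 := by
  decide +kernel

theorem count_one_true : ((List.range 512).filter fun t => f t == 1 && (par (256 &&& t))).length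
    = 0 := by
  decide +kernel

theorem count_28_true : ((List.range 512).filter fun t => f t == 28 && (par (256 &&& t))).length
    = 10 := by
  decide +kernel

theorem count_28_false : ((List.range 512).filter fun t => f t == 28 && !(par (256 &&& t))).length
    = 0 := by
  decide +kernel

theorem tri_all : (K.all fun p => (p == 0) || (K.all fun q => (q == 0) || (p == q) ||
    (f (p ^^^ q) == 0))) = true := by
  decide +kernel

theorem f_zero : f 0 = 176 := by
  decide +kernel

theorem f_one : f 1 = 1 := by
  decide +kernel

theorem f_two : f 2 = 1 := by
  decide +kernel

end H721R3.CE
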