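import Pool.Agent.H721R3.CE.Pos
import Pool.Agent.H721R3.CE.Tri

set_option autoImplicit false

namespace H721R3.CE

open Finset

attribute [local irreducible] f par FN PN K

theorem f_vals {t : ℕ} (h : t < 512) :
    f t = 0 ∨ f t = 1 ∨ f t = 28 ∨ (t = 0 ∧ f t = 176) := by
  have := List.all_eq_true.1 vals t (List.mem_range.2 h)
  simpa [or_assoc] using this

theorem par_eq {n : ℕ} (h : n < 512) : par n =
    (n.testBit 0 ^^ n.testBit 1 ^^ n.testBit 2 ^^ n.testBit 3 ^^ n.testBit 4 ^^ n.testBit 5 ^^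
    n.testBit 6 ^^ n.testBit 7 ^^ n.testBit 8) :=
  beq_iff_eq.1 (List.all_eq_true.1 par_list n (List.mem_range.2 h))

theorem lt_xor {m n : ℕ} (hm : m < 512) (hn : n < 512) : m ^^^ n < 512 := by
  have := Nat.xor_lt_two_pow (x := m) (y := n) (n := 9) (by norm_num; exact hm)
    (by norm_num; exact hn)
  norm_num at this
  exact this

theorem lt_and {m n : ℕ} (hn : n < 512) : m &&& n < 512 :=
  lt_of_le_of_lt Nat.and_le_right hn

theorem xor4 : ∀ a b c d : Bool, ((a ^^ b) ^^ (c ^^ d)) = ((a ^^ c) ^^ (b ^^ d)) := by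
  decide

theorem x9 (a0 a1 a2 a3 a4 a5 a6 a7 a8 b0 b1 b2 b3 b4 b5 b6 b7 b8 : Bool) :
    (a0 ^^ b0 ^^ (a1 ^^ b1) ^^ (a2 ^^ b2) ^^ (a3 ^^ b3) ^^ (a4 ^^ b4) ^^ (a5 ^^ b5) ^^
      (a6 ^^ b6) ^^ (a7 ^^ b7) ^^ (a8 ^^ b8)) =
    ((a0 ^^ a1 ^^ a2 ^^ a3 ^^ a4 ^^ a5 ^^ a6 ^^ a7 ^^ a8) ^^
      (b0 ^^ b1 ^^ b2 ^^ b3 ^^ b4 ^^ b5 ^^ b6 ^^ b7 ^^ b8)) := by
  rw [xor4 a0 b0 a1 b1, xor4 (a0 ^^ a1) (b0 ^^ b1) a2 b2,
    xor4 (a0 ^^ a1 ^^ a2) (b0 ^^ b1 ^^ b2) a3 b3,
    xor4 (a0 ^^ a1 ^^ a2 ^^ a3) (b0 ^^ b1 ^^ b2 ^^ b3) a4 b4,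
    xor4 (a0 ^^ a1 ^^ a2 ^^ a3 ^^ a4) (b0 ^^ b1 ^^ b2 ^^ b3 ^^ b4) a5 b5,
    xor4 (a0 ^^ a1 ^^ a2 ^^ a3 ^^ a4 ^^ a5) (b0 ^^ b1 ^^ b2 ^^ b3 ^^ b4 ^^ b5) a6 b6,
    xor4 (a0 ^^ a1 ^^ a2 ^^ a3 ^^ a4 ^^ a5 ^^ a6) (b0 ^^ b1 ^^ b2 ^^ b3 ^^ b4 ^^ b5 ^^ b6) a7 b7,
    xor4 (a0 ^^ a1 ^^ a2 ^^ a3 ^^ a4 ^^ a5 ^^ a6 ^^ a7)
      (b0 ^^ b1 ^^ b2 ^^ b3 ^^ b4 ^^ b5 ^^ b6 ^^ b7) a8 b8]

theorem par_xor {m n : ℕ} (hm : m < 512) (hn : n < 512) :
    par (m ^^^ n) = (par m ^^ par n) := by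
  rw [par_eq (lt_xor hm hn), par_eq hm, par_eq hn]
  simp only [Nat.testBit_xor]
  exact x9 _ _ _ _ _ _ _ _ _ _ _ _ _ _ _ _ _ _

/-- the characters -/
noncomputable def chi (u z : ℕ) : ℝ := if par (u &&& z) then -1 else 1

theorem chi_xor (u : ℕ) {m n : ℕ} (hm : m < 512) (hn : n < 512) :
    chi u (m ^^^ n) = chi u m * chi u n := by
  unfold chi
  rw [Nat.and_xor_distrib_left, par_xor (lt_and hm) (lt_and hn)]
  cases par (u &&& m) <;> cases par (u &&& n) <;> simp

theorem chi_comm (u z : ℕ) : chi u z = chi z u := by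
  unfold chi
  rw [Nat.and_comm]

theorem chi_mul_self (u z : ℕ) : chi u z * chi u z = 1 := by
  unfold chi
  cases par (u &&& z) <;> simp

theorem chi_orth {z : ℕ} (hz : z < 512) (h0 : z ≠ 0) : ∑ u ∈ range 512, chi u z = 0 := by
  have h := List.all_eq_true.1 key_ne z (List.mem_range.2 hz)
  have h' : ∃ b, b < 9 ∧ par (2 ^ b &&& z) = true := by
    rcases Bool.or_eq_true _ _ ▸ h with h1 | h1
    · exact absurd (beq_iff_eq.1 h1) h0
    · obtain ⟨b, hb, hb'⟩ := List.any_eq_true.1 h1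
      exact ⟨b, List.mem_range.1 hb, hb'⟩
  obtain ⟨b, hb, hpb⟩ := h'
  have hb2 : 2 ^ b < 512 := by
    calc 2 ^ b < 2 ^ 9 := Nat.pow_lt_pow_right (by norm_num) hb
      _ = 512 := by norm_num
  have key : ∑ u ∈ range 512, chi u z = ∑ u ∈ range 512, - chi u z := by
    refine Finset.sum_nbij' (fun u => u ^^^ 2 ^ b) (fun u => u ^^^ 2 ^ b) ?_ ?_ ?_ ?_ ?_
    · intro u hu
      exact mem_range.2 (lt_xor (mem_range.1 hu) hb2)
    · intro u hu
      exact mem_range.2 (lt_xor (mem_range.1 hu) hb2)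
    · intro u hu
      simp
    · intro u hu
      simp
    · intro u hu
      rw [chi_comm (u ^^^ 2 ^ b) z, chi_xor z (mem_range.1 hu) hb2, chi_comm z u,
        chi_comm z (2 ^ b)]
      have : chi (2 ^ b) z = -1 := by
        unfold chi
        rw [hpb]
        simp
      rw [this]
      ring
  rw [Finset.sum_neg_distrib] at key
  linarith

theorem chi_zero (u : ℕ) : chi u 0 = 1 := by
  have := chi_xor u (m := 0) (n := 0) (by norm_num) (by norm_num)
  rw [Nat.xor_self] at this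
  rcases (by unfold chi; split_ifs <;> simp : chi u 0 = 1 ∨ chi u 0 = -1) with h | h
  · exact h
  · rw [h] at this
    norm_num at this

/-- the eigenvalues -/
noncomputable def lam (u : ℕ) : ℝ := ∑ t ∈ range 512, (f t : ℝ) * chi u t

theorem f_eq {z : ℕ} (hz : z < 512) :
    ∑ u ∈ range 512, lam u * chi u z = 512 * (f z : ℝ) := by
  unfold lam
  calc ∑ u ∈ range 512, (∑ t ∈ range 512, (f t : ℝ) * chi u t) * chi u z
      = ∑ t ∈ range 512, (f t : ℝ) * ∑ u ∈ range 512, chi u (t ^^^ z) := by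
        simp only [Finset.sum_mul, Finset.mul_sum]
        rw [Finset.sum_comm]
        refine Finset.sum_congr rfl fun t ht => Finset.sum_congr rfl fun u _ => ?_
        rw [chi_xor u (mem_range.1 ht) hz]
        ring
    _ = ∑ t ∈ range 512, if t = z then 512 * (f z : ℝ) else 0 := by
        refine Finset.sum_congr rfl fun t ht => ?_
        split_ifs with h
        · subst h
          rw [Nat.xor_self]
          simp [chi_zero]
          ring
        · rw [chi_orth (lt_xor (mem_range.1 ht) hz), mul_zero]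
          intro h0
          exact h (Nat.xor_eq_zero_iff.1 h0)
    _ = 512 * (f z : ℝ) := by
        rw [Finset.sum_ite_eq', if_pos (mem_range.2 hz)]

theorem pos_filter (u : ℕ) (l : List ℕ) : pos u (l.filter fun t => f t != 0) = pos u l := by
  induction l with
  | nil => rfl
  | cons t l ih =>
    by_cases h : f t = 0
    · rw [List.filter_cons_of_neg (by simp [h])]
      rw [ih]
      simp [pos, h]
    · rw [List.filter_cons_of_pos (by simp [h])]
      simp only [pos, ih]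

theorem par_zero : par 0 = false := by
  rw [par_eq (by norm_num)]
  simp

theorem sum_list (u : ℕ) (l : List ℕ) :
    (l.map fun t => (f t : ℝ) * chi u t).sum = 2 * (pos u l : ℝ) - (pos 0 l : ℝ) := by
  induction l with
  | nil => simp [pos]
  | cons t l ih =>
    rw [List.map_cons, List.sum_cons, ih]
    simp only [pos, chi, Nat.zero_and, par_zero]
    by_cases h : par (u &&& t) = true
    · simp [h]
      ring
    · simp [h]
      ring

theorem lam_nonneg {u : ℕ} (hu : u < 512) : 0 ≤ lam u := by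
  have h1 : lam u = ((List.range 512).map fun t => (f t : ℝ) * chi u t).sum := rfl
  rw [h1, sum_list, ← pos_filter, ← pos_filter 0, K_eq, sum_K]
  have := List.all_eq_true.1 pos_all u (List.mem_range.2 hu)
  have h2 : 280 ≤ pos u K := Nat.le_of_ble_eq_true this
  have h3 : (280 : ℝ) ≤ (pos u K : ℝ) := by exact_mod_cast h2
  push_cast
  linarith

/-- the matrix -/
noncomputable def A : Matrix (Fin 512) (Fin 512) ℝ :=
  Matrix.of fun i j => (f (i.1 ^^^ j.1) : ℝ)

theorem A_eq : A = ∑ u ∈ range 512, (lam u / 512) •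
    Matrix.vecMulVec (fun i : Fin 512 => chi u i.1) (star (fun i : Fin 512 => chi u i.1)) := by
  ext i j
  rw [Matrix.sum_apply]
  have h := f_eq (lt_xor i.2 j.2)
  have h2 : ∑ u ∈ range 512, (lam u / 512) * (chi u i.1 * chi u j.1) = (f (i.1 ^^^ j.1) : ℝ) := by
    have : ∑ u ∈ range 512, (lam u / 512) * (chi u i.1 * chi u j.1)
        = (∑ u ∈ range 512, lam u * chi u (i.1 ^^^ j.1)) / 512 := by
      rw [Finset.sum_div]
      refine Finset.sum_congr rfl fun u _ => ?_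
      rw [chi_xor u i.2 j.2]
      ring
    rw [this, h]
    ring
  rw [A, Matrix.of_apply, ← h2]
  refine Finset.sum_congr rfl fun u _ => ?_
  simp [Matrix.vecMulVec_apply]

theorem A_psd : A.PosSemidef := by
  rw [A_eq]
  refine Matrix.posSemidef_sum _ fun u hu => ?_
  refine Matrix.PosSemidef.smul (Matrix.posSemidef_vecMulVec_self_star _) ?_
  exact div_nonneg (lam_nonneg (mem_range.1 hu)) (by norm_num)

/-- the graph -/
def G : SimpleGraph (Fin 512) where
  Adj i j := i ≠ j ∧ f (i.1 ^^^ j.1) ≠ 0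
  symm := ⟨fun i j h => ⟨h.1.symm, by rw [Nat.xor_comm]; exact h.2⟩⟩
  loopless := ⟨fun i h => h.1 rfl⟩

theorem mem_K {t : ℕ} (h : t < 512) (h0 : f t ≠ 0) : t ∈ K := by
  rw [← K_eq]
  refine List.mem_filter.2 ⟨List.mem_range.2 h, by simpa using h0⟩

theorem no_tri (a c d : Fin 512) (h1 : G.Adj a c) (h2 : G.Adj a d) (h3 : G.Adj c d) : False := by
  have hp := mem_K (lt_xor a.2 c.2) h1.2
  have hq := mem_K (lt_xor a.2 d.2) h2.2
  have h := List.all_eq_true.1 tri_all _ hp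
  rcases Bool.or_eq_true _ _ ▸ h with h | h
  · exact h1.1 (Fin.ext (Nat.xor_eq_zero_iff.1 (beq_iff_eq.1 h)))
  have h := List.all_eq_true.1 h _ hq
  rcases Bool.or_eq_true _ _ ▸ h with h | h
  · rcases Bool.or_eq_true _ _ ▸ h with h | h
    · exact h2.1 (Fin.ext (Nat.xor_eq_zero_iff.1 (beq_iff_eq.1 h)))
    · have h := beq_iff_eq.1 h
      exact h3.1 (Fin.ext (Nat.xor_right_injective h))
  · have h := beq_iff_eq.1 h
    apply h3.2
    rw [← h]
    congr 1
    have : a.1 ^^^ c.1 ^^^ (a.1 ^^^ d.1) = (a.1 ^^^ a.1) ^^^ (c.1 ^^^ d.1) := by ac_rfl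
    rw [this, Nat.xor_self, Nat.zero_xor]

theorem card_filter (n : ℕ) (p : ℕ → Bool) :
    ((range n).filter fun t => p t = true).card = ((List.range n).filter p).length := by
  have h : ((range n).filter fun t => p t = true) = ((List.range n).filter p).toFinset := by
    ext t
    simp
  rw [h, List.toFinset_card_of_nodup]
  exact List.Nodup.filter _ List.nodup_range

theorem sum_count (p : ℕ → Bool) (c : ℝ) (k : ℕ)
    (h : ((List.range 512).filter p).length = k) :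
    ∑ t ∈ range 512, (if p t = true then c else 0) = k * c := by
  rw [← Finset.sum_filter, Finset.sum_const, card_filter, h, nsmul_eq_mul]

theorem power_sum (β : ℝ) (hβ : 0 < β) :
    ∑ t ∈ range 512, (f t : ℝ) ^ β * chi 256 t
      = (176 : ℝ) ^ β + 104 - 10 * (28 : ℝ) ^ β := by
  have e : ∀ t ∈ range 512, (f t : ℝ) ^ β * chi 256 t =
      (if t = 0 then (176 : ℝ) ^ β else 0)
      + (if (f t == 1 && !(par (256 &&& t))) = true then 1 else 0)
      + (if (f t == 1 && (par (256 &&& t))) = true then -1 else 0)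
      + (if (f t == 28 && (par (256 &&& t))) = true then -(28 : ℝ) ^ β else 0)
      + (if (f t == 28 && !(par (256 &&& t))) = true then (28 : ℝ) ^ β else 0) := by
    intro t ht
    have hf0 : f 0 = 176 := f_zero
    unfold chi
    rcases f_vals (mem_range.1 ht) with h | h | h | ⟨h0, h⟩
    · have ht0 : t ≠ 0 := by
        rintro rfl
        omega
      rw [h]
      simp [ht0, Real.zero_rpow hβ.ne']
    · have ht0 : t ≠ 0 := by
        rintro rfl
        omega
      rw [h]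
      cases par (256 &&& t) <;> simp [ht0]
    · have ht0 : t ≠ 0 := by
        rintro rfl
        omega
      rw [h]
      cases par (256 &&& t) <;> simp [ht0]
    · subst h0
      rw [h]
      simp [par_zero]
  rw [Finset.sum_congr rfl e]
  simp only [Finset.sum_add_distrib]
  rw [sum_count _ _ _ count_one_false, sum_count _ _ _ count_one_true,
    sum_count _ _ _ count_28_true, sum_count _ _ _ count_28_false,
    Finset.sum_ite_eq', if_pos (mem_range.2 (by norm_num))]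
  push_cast
  ring

theorem shift_sum {i : ℕ} (hi : i < 512) (g : ℕ → ℝ) :
    ∑ j ∈ range 512, g (i ^^^ j) = ∑ t ∈ range 512, g t := by
  refine Finset.sum_nbij' (fun j => i ^^^ j) (fun j => i ^^^ j) ?_ ?_ ?_ ?_ ?_
  · intro u hu
    exact mem_range.2 (lt_xor hi (mem_range.1 hu))
  · intro u hu
    exact mem_range.2 (lt_xor hi (mem_range.1 hu))
  · intro u hu
    simp
  · intro u hu
    simp
  · intro u hu
    rfl

theorem quad (β : ℝ) (hβ : 0 < β) (h : (A.map (fun x : ℝ => x ^ β)).PosSemidef) :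
    0 ≤ (176 : ℝ) ^ β + 104 - 10 * (28 : ℝ) ^ β := by
  have h1 := h.dotProduct_mulVec_nonneg (fun i : Fin 512 => chi 256 i.1)
  have h2 : star (fun i : Fin 512 => chi 256 i.1) ⬝ᵥ
      ((A.map (fun x : ℝ => x ^ β)).mulVec (fun i : Fin 512 => chi 256 i.1))
      = 512 * ((176 : ℝ) ^ β + 104 - 10 * (28 : ℝ) ^ β) := by
    rw [← power_sum β hβ]
    have : ∀ i : Fin 512, chi 256 i.1 * (∑ j : Fin 512, (f (i.1 ^^^ j.1) : ℝ) ^ β * chi 256 j.1)
        = ∑ t ∈ range 512, (f t : ℝ) ^ β * chi 256 t := by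
      intro i
      rw [← shift_sum i.2 (fun t => (f t : ℝ) ^ β * chi 256 t), Finset.mul_sum,
        Fin.sum_univ_eq_sum_range (fun j => chi 256 i.1 * ((f (i.1 ^^^ j) : ℝ) ^ β * chi 256 j)) 512]
      refine Finset.sum_congr rfl fun j hj => ?_
      rw [chi_xor 256 i.2 (mem_range.1 hj)]
      ring
    simp only [dotProduct, Matrix.mulVec, Matrix.map_apply, A, Matrix.of_apply, Pi.star_apply,
      star_trivial]
    rw [Finset.sum_congr rfl fun i _ => this i]
    simp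
  rw [h2] at h1
  linarith

theorem log_lt : 176 * Real.log 176 < 280 * Real.log 28 := by
  have h : Real.log ((176 : ℝ) ^ 22) < Real.log ((28 : ℝ) ^ 35) :=
    Real.log_lt_log (by positivity) (by norm_num)
  rw [Real.log_pow, Real.log_pow] at h
  push_cast at h
  linarith

theorem exists_neg : ∃ β : ℝ, 1 < β ∧ (176 : ℝ) ^ β + 104 - 10 * (28 : ℝ) ^ β < 0 := by
  set g : ℝ → ℝ := fun β => (176 : ℝ) ^ β + 104 - 10 * (28 : ℝ) ^ β with hg
  have hd : HasDerivAt g (Real.log 176 * (176 : ℝ) ^ (1 : ℝ) - 10 * (Real.log 28 * (28 : ℝ) ^ (1 : ℝ))) 1 := by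
    have h1 : HasDerivAt (fun β : ℝ => (176 : ℝ) ^ β) (Real.log 176 * (176 : ℝ) ^ (1 : ℝ)) 1 := by
      rw [mul_comm]
      exact (Real.hasStrictDerivAt_const_rpow (by norm_num : (0 : ℝ) < 176) 1).hasDerivAt
    have h2 : HasDerivAt (fun β : ℝ => (28 : ℝ) ^ β) (Real.log 28 * (28 : ℝ) ^ (1 : ℝ)) 1 := by
      rw [mul_comm]
      exact (Real.hasStrictDerivAt_const_rpow (by norm_num : (0 : ℝ) < 28) 1).hasDerivAt
    exact (h1.add_const 104).sub (h2.const_mul 10)
  have hneg : Real.log 176 * (176 : ℝ) ^ (1 : ℝ) - 10 * (Real.log 28 * (28 : ℝ) ^ (1 : ℝ)) < 0 := by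
    rw [Real.rpow_one, Real.rpow_one]
    have := log_lt
    linarith
  have hs := (hasDerivAt_iff_tendsto_slope.1 hd).eventually (gt_mem_nhds hneg)
  have hs' : ∀ᶠ y in nhdsWithin (1 : ℝ) (Set.Ioi 1), slope g 1 y < 0 :=
    hs.filter_mono (nhdsWithin_mono _ (fun x hx => ne_of_gt hx))
  obtain ⟨β, h1, h2⟩ := (hs'.and self_mem_nhdsWithin).exists
  have h2 : 1 < β := h2
  refine ⟨β, h2, ?_⟩
  have g1 : g 1 = 0 := by
    simp only [hg, Real.rpow_one]
    norm_num
  rw [slope_def_field, g1, sub_zero] at h1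
  have := (div_lt_iff₀ (sub_pos.2 h2)).1 h1
  rw [zero_mul] at this
  exact this

end H721R3.CE
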