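import Pool.Agent.H721R3.CE.Data

set_option autoImplicit false

namespace H721R3.CE

theorem pos_all : ((List.range 512).all fun u => Nat.ble 280 (pos u K)) = true := by
  decide +kernel

end H721R3.CE
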